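import Pool.Agent.Hul.Mult
import Pool.Agent.Hul.Low

/-!
# MP_67b84b_gt: explicit two sided bounds for the best constant in every odd dimension

`gam n` is the supremum of `V(C) / P ^ n` over all simple closed rectifiable curves in `ℝ^n`.
-/

set_option autoImplicit false

namespace Pool.Agent.Results.MP_67b84b_gt.OddBounds

open Pool.Agent.Hul

/-- For every odd `n = 2 m + 1 ≥ 3` the best constant `gam n` is the least upper bound of the
quotients, and it lies between two explicit bounds. -/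
theorem result (m : ℕ) (hm : 1 ≤ m) :
    IsLUB (ratios (2 * m + 1)) (gam (2 * m + 1)) ∧
    √2 / (4 ^ m * ((2 * m + 1 : ℕ) : ℝ) ^ ((2 * m + 1 : ℝ) / 2) * Real.pi ^ (m + 1) * (m + 1) *
      (m.factorial : ℝ) ^ 3) ≤ gam (2 * m + 1) ∧
    gam (2 * m + 1) ≤ 1 / (((2 * m + 1).factorial : ℝ) * √((2 * m + 2).factorial : ℝ) *
      ((2 * m + 1 : ℕ) : ℝ) ^ (((2 * m + 1 : ℕ) : ℝ) / 2)) := by
  have h1 : (1 : ℕ) ≤ 2 * m + 1 := by omega
  refine ⟨isLUB_csSup ⟨_, cur m, cur_curve m hm, rfl⟩ ⟨upp (2 * m + 1), ratios_le h1⟩, ?_, ?_⟩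
  · exact (low_le m hm).trans (le_gam h1 (cur_curve m hm))
  · exact gam_le h1

end Pool.Agent.Results.MP_67b84b_gt.OddBounds
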